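import Pool.Agent.X157.BFInfB

/-!
# The Beck–Fiala problem for infinite translation invariant set systems

Let `G` be an infinite group (written additively, not necessarily commutative), and `F` a family of
finite subsets of `r` copies of `G` which is invariant under the left translations; every point lies
in at most `t` members of the family.

(1) If `G` is abelian and torsion-free, for example `ℤ^d`, then some colouring with the colours
`1`, `-1` has `|χ(A)| ≤ 2 ^ 666 √(r t)` for all `A` in the family. For `r = 1` this is the
Beck–Fiala bound for the translates of any collection of finite sets of total size `t`.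

(2) There is an absolute constant `C` such that for every group `G`, if no nonempty member has a
translation symmetry and all elements `x - y ≠ 0` with `x`, `y` in the same copy and in the same
member of the family lie outside normal subgroups of index at most `e`, then for all `k ≥ 1` some
colouring has

  `|χ(A)| ≤ C (k (√t + (1 + log t)^2 √(log r)) + (1 + log t)^(3/2) √(log^(k) (log e)))`,

`log^(k)` the `k`-th iterate of `x ↦ log (1 + x)`.

(3) So for `ℤ^d` and members whose differences have coordinates at most `D`, the bound of (2) holds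
with `e = D + 1`: the Beck–Fiala bound `O_k(√t)` for `log r ≤ t / (1 + log t)^4` orbits of points
and diameter up to a `k`-fold exponential of `t / (1 + log t)^3`.

The proof of (1): `W862.Kom.oddP` (library) through injective reductions of the supports modulo a
large prime, see `X157.KInf`. The proof of (2): at most `r t^2` differences have to be separated;
the intersection of the corresponding subgroups gives a finite quotient with at most `r e^(r t^2)`
points, to which the starting result `BeckFialaIterFree` is applied.
-/

namespace Pool.Agent.Results.MP_e8ee11_co.TranslationInvariant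

open Pool.Agent.X157.BFInf

/-- the family `F` has discrepancy at most `B`: some colouring `χ` with the colours `1` and `-1` has
`|χ(A)| ≤ B` for all `A` in `F` -/
def HasColouring {V : Type} (F : Set (Finset V)) (B : ℝ) : Prop :=
  ∃ χ : V → ℤ, (∀ q, χ q = 1 ∨ χ q = -1) ∧ ∀ A ∈ F, ((|∑ q ∈ A, χ q| : ℤ) : ℝ) ≤ B

/-- differences `x - y ≠ 0` of elements of one copy of `G` and of one member of `F` lie outside some
normal subgroup of finite index at most `e` -/
def Separated {G : Type} [AddGroup G] {r : ℕ} (e : ℕ) (F : Set (Finset (Fin r × G))) : Prop :=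
  ∀ A ∈ F, ∀ (c : Fin r) (x y : G), (c, x) ∈ A → (c, y) ∈ A → x ≠ y →
    ∃ N : AddSubgroup G, N.Normal ∧ 0 < N.index ∧ N.index ≤ e ∧ x - y ∉ N

/-- `C (k (√t + (1 + log t)^2 √(log r)) + (1 + log t)^(3/2) √(L^k(w)))`, where `L^k` is the `k`-th
iterate of `L(x) = log (1 + x)` -/
noncomputable def bound (C : ℝ) (r t k : ℕ) (w : ℝ) : ℝ :=
  C * (k * (Real.sqrt t + (1 + Real.log t) ^ 2 * Real.sqrt (Real.log r)) +
    (1 + Real.log t) ^ (3 / 2 : ℝ) * Real.sqrt ((fun x : ℝ => Real.log (1 + x))^[k] w))

theorem result :
    (∀ (G : Type) [AddCommGroup G] (r t : ℕ) (F : Set (Finset (Fin r × G))),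
      TorsionFree G → Invariant F → 1 ≤ t → DegreeLE F t →
      HasColouring F (2 ^ 666 * Real.sqrt (r * t))) ∧
    ∃ C : ℝ,
      (∀ (G : Type) [AddGroup G] (r t e k : ℕ) (F : Set (Finset (Fin r × G))),
        Free F → Invariant F → 1 ≤ t → DegreeLE F t → 1 ≤ e → Separated e F → 1 ≤ k →
        HasColouring F (bound C r t k (Real.log e))) ∧
      (∀ (d r t D k : ℕ) (F : Set (Finset (Fin r × (Fin d → ℤ)))),
        Invariant F → 1 ≤ t → DegreeLE F t →
        (∀ A ∈ F, ∀ (c : Fin r) (x y : Fin d → ℤ), (c, x) ∈ A → (c, y) ∈ A →
          ∀ i, |x i - y i| ≤ D) → 1 ≤ k →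
        HasColouring F (bound C r t k (Real.log (D + 1)))) := by
  refine ⟨fun G _ r t F htf hinv ht hdeg => sqrt_bound htf hinv ht hdeg, ?_⟩
  obtain ⟨C, hC⟩ := iter_bound
  refine ⟨C, fun G _ r t e k F hfree hinv ht hdeg he hres hk =>
    hC G r t e F hfree hinv ht hdeg he hres k hk, ?_⟩
  intro d r t D k F hinv ht hdeg hD hk
  have htf : TorsionFree (Fin d → ℤ) := by
    intro n a hn ha
    funext i
    have h1 := congrFun ha i
    simp only [Pi.smul_apply, nsmul_eq_mul, Pi.zero_apply, mul_eq_zero] at h1
    rcases h1 with h1 | h1
    · exact absurd (by exact_mod_cast h1) hn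
    · exact h1
  have h := hC (Fin d → ℤ) r t (D + 1) F (fun A _ hA a ha => free htf hA ha) hinv ht hdeg
    (by omega) (fun A hA c x y hx hy hne => zd_sep d D x y (hD A hA c x y hx hy) hne) k hk
  have hD1 : ((D + 1 : ℕ) : ℝ) = (D : ℝ) + 1 := by push_cast; rfl
  rw [hD1] at h
  exact h

end Pool.Agent.Results.MP_e8ee11_co.TranslationInvariant
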