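import Pool.Agent.Results.MP_e8ee11_co.BeckFialaIterFree
import Pool.Agent.X77.TreePair

/-!
# The Beck–Fiala problem for sets with few boundary edges in a connected graph

Let `S_1, …, S_m` be sets in `[n]` of maximum degree at most `t` and let `G` be any connected graph
on `[n]`, for example a path. The bounds of the starting result `BeckFialaIterFree` hold with
the sizes of the sets replaced by the numbers of the boundary edges of the sets in `G`, and with
the number `m` of the sets replaced by the number of the sets which have more than `√t` boundary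
edges; moreover the colouring satisfies `|χ(A)| ≤ |∂A| + 1` for all subsets `A` of `[n]`.

Proof: the elements are paired so that every set separates at most `|∂A|` pairs
(`Pool.Agent.X77.TreePair.pairing`), and the members of a pair get opposite signs.
-/

set_option autoImplicit false

namespace Pool.Agent.Results.MP_e8ee11_co.TreeBoundaries

open Finset

/-- The number of the edges of `G` with exactly one end in `A`. -/
noncomputable def boundary {n : ℕ} (G : SimpleGraph (Fin n)) (A : Finset (Fin n)) : ℕ :=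
  Nat.card {p : Fin n × Fin n // G.Adj p.1 p.2 ∧ p.1 ∈ A ∧ p.2 ∉ A}

/-- `√t + (1 + log t)^2 √(log s)` -/
noncomputable def sizeTerm (t s : ℕ) : ℝ :=
  Real.sqrt t + (1 + Real.log t) ^ 2 * Real.sqrt (Real.log s)

/-- `√t + (1 + log t)^(3/2) √(L^(r+1)(x))`, where `L^k` is the `k`-th iterate of
`L(x) = log (1 + x)` -/
noncomputable def lastTerm (t r : ℕ) (x : ℝ) : ℝ :=
  Real.sqrt t + (1 + Real.log t) ^ (3 / 2 : ℝ)
    * Real.sqrt ((fun x : ℝ => Real.log (1 + x))^[r + 1] x)

section pairs

variable {n : ℕ} (σ : Fin n → Fin n)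

/-- the coloring of the elements made from the signs of the pairs -/
noncomputable def unfoldSigns (y : Fin n → ℝ) (x : Fin n) : ℝ :=
  if x < σ x then y x else if σ x < x then - y (σ x) else 1

/-- positive parts -/
def Tp (A : Finset (Fin n)) : Finset (Fin n) :=
  Finset.univ.filter (fun x => x < σ x ∧ x ∈ A ∧ σ x ∉ A)

/-- negative parts -/
def Tn (A : Finset (Fin n)) : Finset (Fin n) :=
  Finset.univ.filter (fun x => x < σ x ∧ x ∉ A ∧ σ x ∈ A)

variable (hσ : ∀ x, σ (σ x) = x)

include hσ in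
theorem sum_sigma (g : Fin n → ℝ) : ∑ x, g (σ x) = ∑ x, g x :=
  Equiv.sum_comp (Function.Involutive.toPerm σ hσ) g

include hσ in
theorem unfold_sum (y f : Fin n → ℝ) :
    ∑ x, f x * unfoldSigns σ y x
      = ∑ x, (if x < σ x then (f x - f (σ x)) * y x else 0) + ∑ x, (if σ x = x then f x else 0) := by
  have h1 : ∀ x, f x * unfoldSigns σ y x = (if x < σ x then f x * y x else 0)
      + (if σ x < x then - (f x * y (σ x)) else 0) + (if σ x = x then f x else 0) := by
    intro x
    unfold unfoldSigns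
    rcases lt_trichotomy x (σ x) with h | h | h
    · rw [if_pos h, if_pos h, if_neg (not_lt.2 h.le), if_neg h.ne']
      ring
    · rw [if_neg (by rw [← h]; exact lt_irrefl x), if_neg (by rw [← h]; exact lt_irrefl x),
        if_neg (by rw [← h]; exact lt_irrefl x), if_neg (by rw [← h]; exact lt_irrefl x),
        if_pos h.symm]
      ring
    · rw [if_neg (not_lt.2 h.le), if_pos h, if_neg (not_lt.2 h.le), if_pos h, if_neg h.ne]
      ring
  simp_rw [h1]
  rw [Finset.sum_add_distrib, Finset.sum_add_distrib]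
  congr 1
  rw [← sum_sigma σ hσ (fun x => if σ x < x then - (f x * y (σ x)) else 0),
    ← Finset.sum_add_distrib]
  refine Finset.sum_congr rfl fun x _ => ?_
  simp only [hσ]
  split_ifs
  · ring
  · ring

include hσ in
theorem half_sum (f : Fin n → ℝ) :
    ∑ x, |f x - f (σ x)| = 2 * ∑ x, (if x < σ x then |f x - f (σ x)| else 0) := by
  have h1 : ∀ x, |f x - f (σ x)| = (if x < σ x then |f x - f (σ x)| else 0)
      + (if σ x < x then |f x - f (σ x)| else 0) := by
    intro x
    rcases lt_trichotomy x (σ x) with h | h | h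
    · rw [if_pos h, if_neg (not_lt.2 h.le)]
      ring
    · rw [if_neg (by rw [← h]; exact lt_irrefl x), if_neg (by rw [← h]; exact lt_irrefl x), ← h]
      simp
    · rw [if_neg (not_lt.2 h.le), if_pos h]
      ring
  have h2 : ∑ x, (if σ x < x then |f x - f (σ x)| else 0)
      = ∑ x, (if x < σ x then |f x - f (σ x)| else 0) := by
    rw [← sum_sigma σ hσ (fun x => if σ x < x then |f x - f (σ x)| else 0)]
    refine Finset.sum_congr rfl fun x _ => ?_
    simp only [hσ]
    rw [abs_sub_comm]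
  rw [Finset.sum_congr rfl (fun x _ => h1 x), Finset.sum_add_distrib, h2]
  ring

/-- variation of an indicator function -/
theorem variation_ind (G : SimpleGraph (Fin n)) [DecidableRel G.Adj] (A : Finset (Fin n)) :
    ∑ x, ∑ y, (if G.Adj x y then |(if x ∈ A then (1:ℝ) else 0) - (if y ∈ A then 1 else 0)| else 0)
      = 2 * boundary G A := by
  classical
  have h1 : ∀ x y, (if G.Adj x y then |(if x ∈ A then (1:ℝ) else 0) - (if y ∈ A then 1 else 0)|
      else 0) = (if G.Adj x y ∧ x ∈ A ∧ y ∉ A then (1:ℝ) else 0)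
        + (if G.Adj y x ∧ y ∈ A ∧ x ∉ A then (1:ℝ) else 0) := by
    intro x y
    by_cases h : G.Adj x y
    · have h' : G.Adj y x := h.symm
      by_cases hx : x ∈ A <;> by_cases hy : y ∈ A <;> simp [h, h', hx, hy]
    · have h' : ¬ G.Adj y x := fun h2 => h h2.symm
      simp [h, h']
  simp_rw [h1]
  simp_rw [Finset.sum_add_distrib]
  rw [Finset.sum_comm (f := fun x y => if G.Adj y x ∧ y ∈ A ∧ x ∉ A then (1:ℝ) else 0)]
  have h2 : ∑ x, ∑ y, (if G.Adj x y ∧ x ∈ A ∧ y ∉ A then (1:ℝ) else 0) = boundary G A := by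
    rw [← Finset.sum_product' (f := fun x y => if G.Adj x y ∧ x ∈ A ∧ y ∉ A then (1:ℝ) else 0)]
    unfold boundary
    rw [Finset.sum_boole, Nat.card_eq_fintype_card, Fintype.card_subtype]
    rfl
  rw [h2]
  ring

/-- a pairing with small separation -/
structure Good (G : SimpleGraph (Fin n)) (σ : Fin n → Fin n) : Prop where
  inv : ∀ x, σ (σ x) = x
  fix : ∀ x y, σ x = x → σ y = y → x = y
  cut : ∀ A : Finset (Fin n), (Tp σ A).card + (Tn σ A).card ≤ boundary G A

theorem exists_good (G : SimpleGraph (Fin n)) (hG : G.Connected) : ∃ σ, Good G σ := by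
  classical
  obtain ⟨r⟩ := hG.nonempty
  obtain ⟨σ, h1, h2, h3⟩ := Pool.Agent.X77.TreePair.pairing G hG r
  refine ⟨σ, h1, fun x y hx hy => (h2 x hx).trans (h2 y hy).symm, fun A => ?_⟩
  have h4 := h3 (fun x => if x ∈ A then (1:ℝ) else 0)
  rw [variation_ind G A, half_sum σ h1] at h4
  have h5 : ∑ x, (if x < σ x then |(if x ∈ A then (1:ℝ) else 0) - (if σ x ∈ A then 1 else 0)|
      else 0) = ((Tp σ A).card : ℝ) + (Tn σ A).card := by
    unfold Tp Tn
    rw [Finset.card_filter, Finset.card_filter]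
    push_cast
    rw [← Finset.sum_add_distrib]
    refine Finset.sum_congr rfl fun x _ => ?_
    by_cases h : x < σ x <;> by_cases hx : x ∈ A <;> by_cases hy : σ x ∈ A <;> simp [h, hx, hy]
  rw [h5] at h4
  have h6 : ((Tp σ A).card : ℝ) + (Tn σ A).card ≤ boundary G A := by linarith
  exact_mod_cast h6

/-- the sum of the unfolded signs over a set -/
theorem sum_set (hσ : ∀ x, σ (σ x) = x) (y : Fin n → ℝ) (A : Finset (Fin n)) :
    ∑ x ∈ A, unfoldSigns σ y x = ∑ x ∈ Tp σ A, y x - ∑ x ∈ Tn σ A, y x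
      + (A.filter (fun x => σ x = x)).card := by
  classical
  have h1 := unfold_sum σ hσ y (fun x => if x ∈ A then (1:ℝ) else 0)
  have h2 : ∑ x, (if x ∈ A then (1:ℝ) else 0) * unfoldSigns σ y x
      = ∑ x ∈ A, unfoldSigns σ y x := by
    simp only [ite_mul, one_mul, zero_mul]
    rw [← Finset.sum_filter]
    congr 1
    ext x
    simp
  rw [← h2, h1]
  congr 1
  · unfold Tp Tn
    rw [Finset.sum_filter, Finset.sum_filter, ← Finset.sum_sub_distrib]
    refine Finset.sum_congr rfl fun x _ => ?_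
    by_cases h : x < σ x <;> by_cases hx : x ∈ A <;> by_cases hy : σ x ∈ A <;> simp [h, hx, hy]
  · rw [Finset.card_filter]
    push_cast
    rw [← Finset.sum_filter, ← Finset.sum_filter, ← Finset.sum_filter]
    refine Finset.sum_congr ?_ fun _ _ => rfl
    ext x
    simp [and_comm]

theorem fixed_le {G : SimpleGraph (Fin n)} (hg : Good G σ) (A : Finset (Fin n)) :
    ((A.filter (fun x => σ x = x)).card : ℝ) ≤ 1 := by
  have : (A.filter (fun x => σ x = x)).card ≤ 1 := by
    rw [Finset.card_le_one]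
    intro a ha b hb
    exact hg.fix a b (Finset.mem_filter.1 ha).2 (Finset.mem_filter.1 hb).2
  exact_mod_cast this

/-- all sets -/
theorem all_sets {G : SimpleGraph (Fin n)} (hg : Good G σ) (y : Fin n → ℝ)
    (hy : ∀ x, |y x| ≤ 1) (A : Finset (Fin n)) :
    |∑ x ∈ A, unfoldSigns σ y x| ≤ boundary G A + 1 := by
  rw [sum_set σ hg.inv]
  have h1 : |∑ x ∈ Tp σ A, y x| ≤ (Tp σ A).card := by
    refine (Finset.abs_sum_le_sum_abs _ _).trans ?_
    refine (Finset.sum_le_card_nsmul _ _ 1 fun x _ => hy x).trans ?_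
    simp
  have h2 : |∑ x ∈ Tn σ A, y x| ≤ (Tn σ A).card := by
    refine (Finset.abs_sum_le_sum_abs _ _).trans ?_
    refine (Finset.sum_le_card_nsmul _ _ 1 fun x _ => hy x).trans ?_
    simp
  have h3 := fixed_le σ hg A
  have h4 : (0:ℝ) ≤ (A.filter (fun x => σ x = x)).card := Nat.cast_nonneg _
  have h5 : ((Tp σ A).card : ℝ) + (Tn σ A).card ≤ boundary G A := by exact_mod_cast hg.cut A
  rw [abs_le] at h1 h2 ⊢
  constructor <;> linarith

/-- the sets for which the pair system is controlled -/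
theorem one_set {G : SimpleGraph (Fin n)} (hg : Good G σ) (y : Fin n → ℝ) (B : ℝ)
    (A : Finset (Fin n)) (h1 : |∑ x ∈ Tp σ A, y x| ≤ B) (h2 : |∑ x ∈ Tn σ A, y x| ≤ B) :
    |∑ x ∈ A, unfoldSigns σ y x| ≤ 2 * B + 1 := by
  rw [sum_set σ hg.inv]
  have h3 := fixed_le σ hg A
  have h4 : (0:ℝ) ≤ (A.filter (fun x => σ x = x)).card := Nat.cast_nonneg _
  rw [abs_le] at h1 h2 ⊢
  constructor <;> linarith

/-- the degree of the pair system -/
theorem deg_pairs {M m t : ℕ} (S : Fin m → Finset (Fin n))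
    (hS : ∀ j, (Finset.univ.filter (fun i => j ∈ S i)).card ≤ t) (e : Fin M → Fin m)
    (he : Function.Injective e) (x : Fin n) :
    (Finset.univ.filter (fun k : Fin (M + M) =>
      x ∈ Fin.append (fun k => Tp σ (S (e k))) (fun k => Tn σ (S (e k))) k)).card ≤ t + t := by
  classical
  have hgen : ∀ z : Fin n, (Finset.univ.filter (fun k : Fin M => z ∈ S (e k))).card ≤ t := by
    intro z
    refine le_trans ?_ (hS z)
    apply Finset.card_le_card_of_injOn e
    · intro k hk
      simp only [Finset.coe_filter, Finset.mem_univ, true_and, Set.mem_ofPred_eq] at hk ⊢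
      exact hk
    · exact he.injOn
  rw [Finset.card_filter, Fin.sum_univ_add]
  simp only [Fin.append_left, Fin.append_right]
  have h1 : ∑ k : Fin M, (if x ∈ Tp σ (S (e k)) then 1 else 0) ≤ t := by
    rw [← Finset.card_filter]
    refine le_trans (Finset.card_le_card ?_) (hgen x)
    intro k hk
    simp only [Finset.mem_filter, Finset.mem_univ, true_and, Tp] at hk ⊢
    exact hk.2.1
  have h2 : ∑ k : Fin M, (if x ∈ Tn σ (S (e k)) then 1 else 0) ≤ t := by
    rw [← Finset.card_filter]
    refine le_trans (Finset.card_le_card ?_) (hgen (σ x))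
    intro k hk
    simp only [Finset.mem_filter, Finset.mem_univ, true_and, Tn] at hk ⊢
    exact hk.2.2
  exact Nat.add_le_add h1 h2

end pairs

/-! ### numerical estimates -/

theorem L_nonneg {x : ℝ} (r : ℕ) (hx : 0 ≤ x) :
    0 ≤ (fun x : ℝ => Real.log (1 + x))^[r] x := H167BK.slog_iter_nonneg r hx

theorem size_num (t s : ℕ) (ht : 1 ≤ t) : 0 ≤ sizeTerm t s ∧ Real.sqrt t ≤ sizeTerm t s ∧
    sizeTerm (t + t) s ≤ 4 * sizeTerm t s := by
  have htR : (1:ℝ) ≤ t := by exact_mod_cast ht
  have hl : 0 ≤ Real.log (t:ℝ) := Real.log_nonneg htR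
  have h0 : 0 ≤ (1 + Real.log (t:ℝ)) ^ 2 * Real.sqrt (Real.log s) := by positivity
  have hsq : 0 ≤ Real.sqrt (t:ℝ) := Real.sqrt_nonneg _
  refine ⟨by unfold sizeTerm; linarith, by unfold sizeTerm; linarith, ?_⟩
  unfold sizeTerm
  push_cast
  have h1 : Real.sqrt ((t:ℝ) + t) ≤ 2 * Real.sqrt t := by
    rw [show (2:ℝ) * Real.sqrt t = Real.sqrt (4 * t) by
      rw [Real.sqrt_mul (by norm_num)]
      congr 1
      rw [show (4:ℝ) = 2 ^ 2 by norm_num, Real.sqrt_sq (by norm_num)]]
    exact Real.sqrt_le_sqrt (by linarith)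
  have h2 : Real.log ((t:ℝ) + t) ≤ 1 + Real.log t := by
    rw [← two_mul, Real.log_mul (by norm_num) (by linarith)]
    have := Real.log_two_lt_d9
    linarith
  have h2' : 0 ≤ Real.log ((t:ℝ) + t) := Real.log_nonneg (by linarith)
  have h3 : (1 + Real.log ((t:ℝ) + t)) ^ 2 ≤ 4 * (1 + Real.log (t:ℝ)) ^ 2 := by nlinarith
  have h4 := mul_le_mul_of_nonneg_right h3 (Real.sqrt_nonneg (Real.log (s:ℝ)))
  linarith

theorem last_num (t r : ℕ) (ht : 1 ≤ t) (x : ℝ) (hx : 0 ≤ x) : 0 ≤ lastTerm t r x ∧
    Real.sqrt t ≤ lastTerm t r x ∧ ∀ z, 0 ≤ z → z ≤ 2 * x →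
      lastTerm (t + t) r z ≤ 8 * lastTerm t r x := by
  have htR : (1:ℝ) ≤ t := by exact_mod_cast ht
  have hl : 0 ≤ Real.log (t:ℝ) := Real.log_nonneg htR
  have h0 : 0 ≤ (1 + Real.log (t:ℝ)) ^ (3 / 2 : ℝ)
    * Real.sqrt ((fun x : ℝ => Real.log (1 + x))^[r + 1] x) := by positivity
  have hsq : 0 ≤ Real.sqrt (t:ℝ) := Real.sqrt_nonneg _
  refine ⟨by unfold lastTerm; linarith, by unfold lastTerm; linarith, fun z hz hzx => ?_⟩
  unfold lastTerm
  push_cast
  have h1 : Real.sqrt ((t:ℝ) + t) ≤ 2 * Real.sqrt t := by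
    rw [show (2:ℝ) * Real.sqrt t = Real.sqrt (4 * t) by
      rw [Real.sqrt_mul (by norm_num)]
      congr 1
      rw [show (4:ℝ) = 2 ^ 2 by norm_num, Real.sqrt_sq (by norm_num)]]
    exact Real.sqrt_le_sqrt (by linarith)
  have h2 : Real.log ((t:ℝ) + t) ≤ 1 + Real.log t := by
    rw [← two_mul, Real.log_mul (by norm_num) (by linarith)]
    have := Real.log_two_lt_d9
    linarith
  have h2' : 0 ≤ Real.log ((t:ℝ) + t) := Real.log_nonneg (by linarith)
  have h3 : (1 + Real.log ((t:ℝ) + t)) ^ (3 / 2 : ℝ) ≤ 4 * (1 + Real.log (t:ℝ)) ^ (3 / 2 : ℝ) := by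
    calc (1 + Real.log ((t:ℝ) + t)) ^ (3 / 2 : ℝ) ≤ (2 * (1 + Real.log (t:ℝ))) ^ (3 / 2 : ℝ) :=
          Real.rpow_le_rpow (by linarith) (by linarith) (by norm_num)
      _ = 2 ^ (3 / 2 : ℝ) * (1 + Real.log (t:ℝ)) ^ (3 / 2 : ℝ) :=
          Real.mul_rpow (by norm_num) (by linarith)
      _ ≤ 4 * (1 + Real.log (t:ℝ)) ^ (3 / 2 : ℝ) := by
          apply mul_le_mul_of_nonneg_right _ (by positivity)
          calc (2:ℝ) ^ (3 / 2 : ℝ) ≤ 2 ^ (2 : ℝ) :=
                Real.rpow_le_rpow_of_exponent_le (by norm_num) (by norm_num)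
            _ = 4 := by norm_num
  have h5 : (fun x : ℝ => Real.log (1 + x))^[r + 1] z
      ≤ 2 * (fun x : ℝ => Real.log (1 + x))^[r + 1] x :=
    (H167KN.slog_iter_mono (r + 1) hz hzx).trans (H167KN.slog_iter_two (r + 1) hx)
  have h6 : Real.sqrt ((fun x : ℝ => Real.log (1 + x))^[r + 1] z)
      ≤ 2 * Real.sqrt ((fun x : ℝ => Real.log (1 + x))^[r + 1] x) := by
    have h7 := L_nonneg (r + 1) hx
    calc Real.sqrt ((fun x : ℝ => Real.log (1 + x))^[r + 1] z)
        ≤ Real.sqrt (4 * (fun x : ℝ => Real.log (1 + x))^[r + 1] x) :=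
          Real.sqrt_le_sqrt (by linarith)
      _ = 2 * Real.sqrt ((fun x : ℝ => Real.log (1 + x))^[r + 1] x) := by
          rw [Real.sqrt_mul (by norm_num)]
          congr 1
          rw [show (4:ℝ) = 2 ^ 2 by norm_num, Real.sqrt_sq (by norm_num)]
  have h8 : (1 + Real.log ((t:ℝ) + t)) ^ (3 / 2 : ℝ)
      * Real.sqrt ((fun x : ℝ => Real.log (1 + x))^[r + 1] z)
      ≤ (4 * (1 + Real.log (t:ℝ)) ^ (3 / 2 : ℝ))
        * (2 * Real.sqrt ((fun x : ℝ => Real.log (1 + x))^[r + 1] x)) :=
    mul_le_mul h3 h6 (Real.sqrt_nonneg _) (by positivity)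
  linarith

theorem unfold_abs {n : ℕ} (σ : Fin n → Fin n) (y : Fin n → ℝ) (hy : ∀ x, |y x| ≤ 1)
    (x : Fin n) : |unfoldSigns σ y x| ≤ 1 := by
  unfold unfoldSigns
  split_ifs
  · exact hy x
  · rw [abs_neg]
    exact hy _
  · simp

/-- **The Beck–Fiala problem and boundaries in a connected graph.** There is an absolute constant
`C` such that for every system of sets `S_1, …, S_m` in `[n]` of maximum degree at most `t`, every
connected graph `G` on `[n]` in which every `S_i` has at most `s` boundary edges, and every `r`: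

* some colouring `χ` satisfies
  `|χ(S_i)| ≤ C r (√t + (1 + log t)^2 √(log s)) + C (√t + (1 + log t)^{3/2} √(L^(r+1)(min M n)))`
  for all `i`, where `M` is the number of the sets `S_i` with more than `√t` boundary edges, and
  `|χ(A)| ≤ |∂A| + 1` for all subsets `A` of `[n]`;
* for every `0 < ε ≤ 1/2` there is a finitely supported probability distribution on points
  `y ∈ [-1,1]^n` with the same bounds, `L^(r+1)(min M n)` replaced by `L^(r+1)(log (1/ε))` and the
  factor `r` by `r + 1`, for which every element is coloured `±1` with probability at least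
  `1 - ε`. -/
theorem result : ∃ C : ℝ, ∀ m n t s : ℕ, 1 ≤ t → 1 ≤ s →
    ∀ G : SimpleGraph (Fin n), G.Connected → ∀ S : Fin m → Finset (Fin n),
    (∀ j, (Finset.univ.filter (fun i => j ∈ S i)).card ≤ t) → (∀ i, boundary G (S i) ≤ s) →
    ∀ r : ℕ,
    (∃ χ : Fin n → ℤ, (∀ j, χ j = 1 ∨ χ j = -1) ∧
      (∀ i, |∑ j ∈ S i, (χ j : ℝ)| ≤ C * r * sizeTerm t s
        + C * lastTerm t r (min (Nat.card {i // Real.sqrt t < boundary G (S i)}) n : ℕ)) ∧
      ∀ A : Finset (Fin n), |∑ j ∈ A, (χ j : ℝ)| ≤ boundary G A + 1) ∧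
    ∀ ε : ℝ, 0 < ε → ε ≤ 1 / 2 →
    ∃ (K : ℕ) (w : Fin K → ℝ) (y : Fin K → Fin n → ℝ),
      (∀ k, 0 ≤ w k) ∧ ∑ k, w k = 1 ∧
      (∀ k j, -1 ≤ y k j ∧ y k j ≤ 1) ∧
      (∀ k i, |∑ j ∈ S i, y k j| ≤ C * (r + 1) * sizeTerm t s
        + C * lastTerm t r (Real.log (1 / ε))) ∧
      (∀ k (A : Finset (Fin n)), |∑ j ∈ A, y k j| ≤ boundary G A + 1) ∧
      ∀ j, ∑ k ∈ Finset.univ.filter (fun k => ¬ (y k j = 1 ∨ y k j = -1)), w k ≤ ε := by
  classical
  obtain ⟨C0, hC0⟩ := Pool.Agent.Results.MP_e8ee11_co.BeckFialaIterFree.result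
  refine ⟨16 * |C0| + 4, fun m n t s ht hs G hG S hdeg hbd r => ?_⟩
  have htR : (1:ℝ) ≤ t := by exact_mod_cast ht
  have hsqt : 1 ≤ Real.sqrt (t:ℝ) := by
    rw [show (1:ℝ) = Real.sqrt 1 by simp]
    exact Real.sqrt_le_sqrt htR
  have hC00 : 0 ≤ |C0| := abs_nonneg _
  have hC01 : C0 ≤ |C0| := le_abs_self _
  obtain ⟨σ, hg⟩ := exists_good G hG
  set I : Finset (Fin m) :=
    Finset.univ.filter (fun i => Real.sqrt t < boundary G (S i)) with hI
  have hIc : Nat.card {i // Real.sqrt t < boundary G (S i)} = I.card := by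
    rw [Nat.card_eq_fintype_card, Fintype.card_subtype]
  rw [hIc]
  set M := I.card with hM
  let e : Fin M → Fin m := fun k => (I.equivFin.symm k).1
  have he : Function.Injective e := fun a b h => I.equivFin.symm.injective (Subtype.ext h)
  have hesurj : ∀ i ∈ I, ∃ k, e k = i := fun i hi => ⟨I.equivFin ⟨i, hi⟩, by simp [e]⟩
  set T : Fin (M + M) → Finset (Fin n) :=
    Fin.append (fun k => Tp σ (S (e k))) (fun k => Tn σ (S (e k))) with hT
  have hTdeg : ∀ j, (Finset.univ.filter (fun k => j ∈ T k)).card ≤ t + t :=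
    fun j => deg_pairs σ S hdeg e he j
  have hTsize : ∀ k, (T k).card ≤ s := by
    intro k
    refine Fin.addCases (fun k => ?_) (fun k => ?_) k
    · rw [hT, Fin.append_left]
      have h1 := hg.cut (S (e k))
      have h2 := hbd (e k)
      omega
    · rw [hT, Fin.append_right]
      have h1 := hg.cut (S (e k))
      have h2 := hbd (e k)
      omega
  have key : ∀ (y : Fin n → ℝ) (B D E : ℝ), (∀ x, |y x| ≤ 1) → (∀ k, |∑ x ∈ T k, y x| ≤ B) →
      2 * B + 1 ≤ D + E → 0 ≤ D → 2 * Real.sqrt t ≤ E →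
      ∀ i, |∑ x ∈ S i, unfoldSigns σ y x| ≤ D + E := by
    intro y B D E hy hB hBD hD hE i
    by_cases hi : i ∈ I
    · obtain ⟨k, rfl⟩ := hesurj i hi
      refine (one_set σ hg y B (S (e k)) ?_ ?_).trans hBD
      · have := hB (Fin.castAdd M k)
        rwa [hT, Fin.append_left] at this
      · have := hB (Fin.natAdd M k)
        rwa [hT, Fin.append_right] at this
    · have h1 := all_sets σ hg y hy (S i)
      have h2 : (boundary G (S i) : ℝ) ≤ Real.sqrt t := by
        by_contra h
        push Not at h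
        exact hi (Finset.mem_filter.2 ⟨Finset.mem_univ _, h⟩)
      linarith
  have hmain := hC0 (M + M) n (t + t) s (by omega) hs T hTdeg hTsize r (fun _ => 0) (by simp)
  obtain ⟨hs0, hs1, hs2⟩ := size_num t s ht
  constructor
  · obtain ⟨y, hy1, hy2⟩ := hmain.1
    have hycast : ∀ j, ((y j : ℤ) : ℝ) = 1 ∨ ((y j : ℤ) : ℝ) = -1 := by
      intro j
      rcases hy1 j with h | h <;> simp [h]
    set χ : Fin n → ℤ := fun x => if x < σ x then y x else if σ x < x then - y (σ x) else 1
      with hχ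
    have hχc : ∀ x, ((χ x : ℤ) : ℝ) = unfoldSigns σ (fun x => ((y x : ℤ) : ℝ)) x := by
      intro x
      simp only [hχ, unfoldSigns]
      split_ifs <;> simp
    have hyabs : ∀ x, |((y x : ℤ) : ℝ)| ≤ 1 := by
      intro x
      rcases hycast x with h | h <;> rw [h] <;> simp
    obtain ⟨hl0, hl1, hl2⟩ := last_num t r ht ((min M n : ℕ) : ℝ) (Nat.cast_nonneg _)
    have hl3 := hl2 ((min (M + M) n : ℕ) : ℝ) (Nat.cast_nonneg _) (by
      have : min (M + M) n ≤ 2 * min M n := by omega
      exact_mod_cast this)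
    refine ⟨χ, fun x => ?_, fun i => ?_, fun A => ?_⟩
    · simp only [hχ]
      split_ifs
      · exact hy1 x
      · rcases hy1 (σ x) with h | h <;> rw [h] <;> simp
      · exact Or.inl rfl
    · simp_rw [hχc]
      refine key _ (C0 * r * sizeTerm (t + t) s
        + C0 * lastTerm (t + t) r ((min (M + M) n : ℕ) : ℝ)) _ _ hyabs (fun k => ?_) ?_ ?_ ?_ i
      · have := hy2 k
        simp only [sub_zero] at this
        exact this
      · have hr0 : (0:ℝ) ≤ r := Nat.cast_nonneg r
        have h1 : C0 * r * sizeTerm (t + t) s ≤ |C0| * r * (4 * sizeTerm t s) := by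
          have h2 : 0 ≤ sizeTerm (t + t) s := (size_num (t + t) s (by omega)).1
          calc C0 * r * sizeTerm (t + t) s ≤ |C0| * r * sizeTerm (t + t) s := by
                apply mul_le_mul_of_nonneg_right _ h2
                exact mul_le_mul_of_nonneg_right hC01 hr0
            _ ≤ |C0| * r * (4 * sizeTerm t s) :=
                mul_le_mul_of_nonneg_left hs2 (by positivity)
        have h2 : C0 * lastTerm (t + t) r ((min (M + M) n : ℕ) : ℝ)
            ≤ |C0| * (8 * lastTerm t r ((min M n : ℕ) : ℝ)) := by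
          have h3 : 0 ≤ lastTerm (t + t) r ((min (M + M) n : ℕ) : ℝ) :=
            (last_num (t + t) r (by omega) _ (Nat.cast_nonneg _)).1
          calc C0 * lastTerm (t + t) r ((min (M + M) n : ℕ) : ℝ)
              ≤ |C0| * lastTerm (t + t) r ((min (M + M) n : ℕ) : ℝ) :=
                mul_le_mul_of_nonneg_right hC01 h3
            _ ≤ |C0| * (8 * lastTerm t r ((min M n : ℕ) : ℝ)) :=
                mul_le_mul_of_nonneg_left hl3 hC00
        have h4 : 0 ≤ |C0| * r * sizeTerm t s := by positivity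
        have h5 : 0 ≤ r * sizeTerm t s := by positivity
        nlinarith
      · have hr0 : (0:ℝ) ≤ r := Nat.cast_nonneg r
        positivity
      · have h6 : 0 ≤ |C0| * lastTerm t r ((min M n : ℕ) : ℝ) := by positivity
        nlinarith
    · simp_rw [hχc]
      exact all_sets σ hg _ hyabs A
  · intro ε hε0 hε
    obtain ⟨K, w, y, h1, h2, h3, h4, h5⟩ := hmain.2 ε hε0 hε
    have hyabs : ∀ k x, |y k x| ≤ 1 := fun k x => abs_le.2 (h3 k x)
    have hlog : 0 ≤ Real.log (1 / ε) := by
      apply Real.log_nonneg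
      rw [le_div_iff₀ hε0]
      linarith
    obtain ⟨hl0, hl1, hl2⟩ := last_num t r ht (Real.log (1 / ε)) hlog
    have hl3 := hl2 (Real.log (1 / ε)) hlog (by linarith)
    refine ⟨K, w, fun k => unfoldSigns σ (y k), h1, h2, fun k x => ?_, fun k i => ?_,
      fun k A => all_sets σ hg _ (hyabs k) A, fun j => ?_⟩
    · exact abs_le.1 (unfold_abs σ (y k) (hyabs k) x)
    · refine key _ (C0 * (r + 1) * sizeTerm (t + t) s
        + C0 * lastTerm (t + t) r (Real.log (1 / ε))) _ _ (hyabs k) (fun i => ?_) ?_ ?_ ?_ i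
      · have := h4 k i
        simp only [sub_zero] at this
        exact this
      · have hr0 : (0:ℝ) ≤ r := Nat.cast_nonneg r
        have h1 : C0 * (r + 1) * sizeTerm (t + t) s ≤ |C0| * (r + 1) * (4 * sizeTerm t s) := by
          have h2 : 0 ≤ sizeTerm (t + t) s := (size_num (t + t) s (by omega)).1
          calc C0 * (r + 1) * sizeTerm (t + t) s ≤ |C0| * (r + 1) * sizeTerm (t + t) s := by
                apply mul_le_mul_of_nonneg_right _ h2
                exact mul_le_mul_of_nonneg_right hC01 (by linarith)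
            _ ≤ |C0| * (r + 1) * (4 * sizeTerm t s) :=
                mul_le_mul_of_nonneg_left hs2 (by positivity)
        have h2 : C0 * lastTerm (t + t) r (Real.log (1 / ε))
            ≤ |C0| * (8 * lastTerm t r (Real.log (1 / ε))) := by
          have h3 : 0 ≤ lastTerm (t + t) r (Real.log (1 / ε)) :=
            (last_num (t + t) r (by omega) _ hlog).1
          calc C0 * lastTerm (t + t) r (Real.log (1 / ε))
              ≤ |C0| * lastTerm (t + t) r (Real.log (1 / ε)) :=
                mul_le_mul_of_nonneg_right hC01 h3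
            _ ≤ |C0| * (8 * lastTerm t r (Real.log (1 / ε))) :=
                mul_le_mul_of_nonneg_left hl3 hC00
        have h4 : 0 ≤ |C0| * (r + 1) * sizeTerm t s := by positivity
        have h5 : 0 ≤ (r + 1) * sizeTerm t s := by positivity
        nlinarith
      · have hr0 : (0:ℝ) ≤ r := Nat.cast_nonneg r
        positivity
      · have h6 : 0 ≤ |C0| * lastTerm t r (Real.log (1 / ε)) := by positivity
        nlinarith
    · unfold unfoldSigns
      by_cases hj : j < σ j
      · simp only [if_pos hj]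
        exact h5 j
      · by_cases hj2 : σ j < j
        · simp only [if_neg hj, if_pos hj2]
          refine le_trans (le_of_eq ?_) (h5 (σ j))
          refine Finset.sum_congr ?_ fun _ _ => rfl
          ext k
          simp only [Finset.mem_filter, Finset.mem_univ, true_and]
          constructor
          · rintro h (h6 | h6)
            · exact h (Or.inr (by rw [h6]))
            · exact h (Or.inl (by rw [h6]; norm_num))
          · rintro h (h6 | h6)
            · exact h (Or.inr (by linarith))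
            · exact h (Or.inl (by linarith))
        · simp only [if_neg hj, if_neg hj2]
          simp only [true_or, not_true_eq_false, Finset.filter_false, Finset.sum_empty]
          exact hε0.le

end Pool.Agent.Results.MP_e8ee11_co.TreeBoundaries
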